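import Pool.Agent.N709.ST.Stm

set_option autoImplicit false

/-! Project ST (helper709), COINC: an old colour on a new set (helper698). -/

namespace Pool.Agent.N698.ST

open Finset Pool.Agent.N709.ST

theorem coinc : Pool.Agent.N709.ST.Coinc := by
  intro s t hst c A C S T hStr hSA hSt hSC hTC hTt hcST hs
  classical
  set D := C ∪ S with hD
  set New := D.powersetCard t \ C.powersetCard t with hNew
  have hCD : C ⊆ D := subset_union_left
  have hSD : S ⊆ D := subset_union_right
  have hpow : C.powersetCard t ⊆ D.powersetCard t := powersetCard_mono hCD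
  have hn : (New.card : ℤ) = (D.card.choose t : ℤ) - (C.card.choose t : ℤ) := by
    rw [hNew, card_sdiff_of_subset hpow, Nat.cast_sub (card_le_card hpow), card_powersetCard,
      card_powersetCard]
  have hcs : cs t c C ⊆ cs t c D := image_subset_image hpow
  have hm : ((cs t c D \ cs t c C).card : ℤ) = ((cs t c D).card : ℤ) - ((cs t c C).card : ℤ) := by
    rw [card_sdiff_of_subset hcs, Nat.cast_sub (card_le_card hcs)]
  have hTcs : c S ∈ cs t c C := by
    rw [hcST]
    exact mem_image_of_mem _ (mem_powersetCard.2 ⟨hTC, hTt⟩)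
  have hNmem : ∀ R, R ∈ New ↔ R ⊆ D ∧ R.card = t ∧ ¬ R ⊆ C := by
    intro R
    rw [hNew, mem_sdiff, mem_powersetCard, mem_powersetCard]
    constructor
    · rintro ⟨⟨h1, h2⟩, h3⟩
      exact ⟨h1, h2, fun h => h3 ⟨h, h2⟩⟩
    · rintro ⟨h1, h2, h3⟩
      exact ⟨⟨h1, h2⟩, fun h => h3 h.1⟩
  have hSN : S ∈ New := (hNmem S).2 ⟨hSD, hSt, hSC⟩
  -- counting
  have key : ∀ X : Finset (Finset ℕ), X ⊆ New →
      (∀ R ∈ New, c R ∉ cs t c C → ∃ R' ∈ New \ X, c R' = c R) →
      ((cs t c D \ cs t c C).card : ℤ) ≤ (New.card : ℤ) - X.card := by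
    intro X hX h
    have h1 : cs t c D \ cs t c C ⊆ (New \ X).image c := by
      intro x hx
      rw [mem_sdiff] at hx
      obtain ⟨hx1, hx2⟩ := hx
      unfold cs at hx1
      rw [mem_image] at hx1
      obtain ⟨R, hR, rfl⟩ := hx1
      rw [mem_powersetCard] at hR
      have hRN : R ∈ New := by
        rw [hNmem]
        refine ⟨hR.1, hR.2, fun hRC => hx2 ?_⟩
        exact mem_image_of_mem _ (mem_powersetCard.2 ⟨hRC, hR.2⟩)
      obtain ⟨R', hR', he⟩ := h R hRN hx2
      rw [← he]
      exact mem_image_of_mem _ hR'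
    have h2 := (card_le_card h1).trans card_image_le
    rw [card_sdiff_of_subset hX] at h2
    have h3 := card_le_card hX
    omega
  have key1 : ((cs t c D \ cs t c C).card : ℤ) ≤ (New.card : ℤ) - 1 := by
    have := key {S} (by simpa using hSN) (by
      intro R hR hRc
      refine ⟨R, ?_, rfl⟩
      rw [mem_sdiff, mem_singleton]
      refine ⟨hR, ?_⟩
      rintro rfl
      exact hRc hTcs)
    simpa using this
  have hcardD : (D.card : ℤ) = (C.card : ℤ) + ((S \ C).card : ℤ) := by
    have : D.card = C.card + (S \ C).card := by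
      rw [hD, ← card_union_of_disjoint (disjoint_sdiff), union_sdiff_self_eq_union]
    exact_mod_cast this
  have hSdC : ((S \ C).card : ℤ) = (t : ℤ) - ((S ∩ C).card : ℤ) := by
    have := card_sdiff_add_card_inter S C
    omega
  have hdl : dl s t c D - dl s t c C = ((S \ C).card : ℤ) -
      ((t : ℤ) - s) * ((New.card : ℤ) - ((cs t c D \ cs t c C).card : ℤ)) := by
    unfold dl
    rw [hn, hm, hcardD]
    ring
  have hDA : D ⊆ A := union_subset hStr.1 hSA
  have hpos : 0 ≤ dl s t c D - dl s t c C := by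
    have := hStr.2 D hCD hDA
    omega
  set w : ℤ := (t : ℤ) - s with hw
  have hw0 : 0 < w := by omega
  set q : ℤ := (New.card : ℤ) - ((cs t c D \ cs t c C).card : ℤ) with hq
  have hq1 : 1 ≤ q := by omega
  have hle : w * q ≤ ((S \ C).card : ℤ) := by omega
  have hle2 : ((S \ C).card : ℤ) ≤ w := by omega
  have hqle : q ≤ 1 := by
    by_contra hcon
    have : 2 ≤ q := by omega
    nlinarith
  have hq' : q = 1 := by omega
  have hwS : ((S \ C).card : ℤ) = w := by
    rw [hq'] at hle
    omega
  have hsc : (S ∩ C).card = s := by omega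
  have hdl0 : dl s t c D = dl s t c C := by
    rw [hwS, hq'] at hdl
    omega
  refine ⟨hsc, hdl0, ⟨hDA, ?_⟩, ?_⟩
  · intro Y hY hYA
    rw [hdl0]
    exact hStr.2 Y (hCD.trans hY) hYA
  · have half : ∀ S₁ ⊆ D, ∀ S₂ ⊆ D, S₁.card = t → S₂.card = t → c S₁ = c S₂ → S₁ ≠ S₂ →
        (S₁ ⊆ C ∨ S₁ = S) := by
      intro S₁ h1 S₂ h2 ht1 ht2 he hne
      by_contra hcon
      rw [not_or] at hcon
      obtain ⟨h3, h4⟩ := hcon
      have hS1N : S₁ ∈ New := (hNmem S₁).2 ⟨h1, ht1, h3⟩
      have := key {S, S₁} (by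
        intro R hR
        rw [mem_insert, mem_singleton] at hR
        rcases hR with rfl | rfl
        · exact hSN
        · exact hS1N) (by
        intro R hR hRc
        by_cases hRS : R = S
        · exact absurd (hRS ▸ hTcs) hRc
        by_cases hR1 : R = S₁
        · have hS2C : ¬ S₂ ⊆ C := by
            intro h5
            apply hRc
            rw [hR1, he]
            exact mem_image_of_mem _ (mem_powersetCard.2 ⟨h5, ht2⟩)
          have hS2S : S₂ ≠ S := by
            intro h5
            apply hRc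
            rw [hR1, he, h5]
            exact hTcs
          refine ⟨S₂, ?_, ?_⟩
          · rw [mem_sdiff, mem_insert, mem_singleton]
            refine ⟨(hNmem S₂).2 ⟨h2, ht2, hS2C⟩, ?_⟩
            rintro (h5 | h5)
            · exact hS2S h5
            · exact hne h5.symm
          · rw [hR1, he]
        · refine ⟨R, ?_, rfl⟩
          rw [mem_sdiff, mem_insert, mem_singleton]
          exact ⟨hR, fun h5 => h5.elim hRS hR1⟩)
      rw [card_pair (Ne.symm h4)] at this
      push_cast at this
      omega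
    intro S₁ h1 S₂ h2 ht1 ht2 he hne
    exact ⟨half S₁ h1 S₂ h2 ht1 ht2 he hne, half S₂ h2 S₁ h1 ht2 ht1 he.symm hne.symm⟩

end Pool.Agent.N698.ST
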